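import Pool.Agent.R884.Lip.Sub

set_option autoImplicit false

/-!
# Hypercyclic subspaces for composition operators on little Lipschitz spaces

Let `T` be a locally finite rooted tree in which only the root may have degree one, `C_φ` a
(bounded) composition operator on the little Lipschitz space `L₀(T)`, and `|lam| ≤ 1`. If
`lam • C_φ` is hypercyclic, then it has a hypercyclic subspace. No condition on `T \ φ(T)` is
needed.

The definitions `RTree`, `IsLittle`, `nrm`, `IsCompOp`, `IsHypVec`, `IsHypSubspace` are in
`Pool.Agent.R884.Lip.Defs`.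
-/

namespace Pool.Agent.Results.MP_b108d3_an.HypercyclicSubspace

open Pool.Agent.R884.Lip

/-- **Main theorem.** Every hypercyclic `lam • C_φ` on `L₀(T)` with `|lam| ≤ 1` has a hypercyclic
subspace. -/
theorem result {T : Type*} (R : RTree T) (φ : T → T) (lam : ℂ) (hφ : IsCompOp R φ)
    (hlam : ‖lam‖ ≤ 1) (h : ∃ f, IsHypVec R φ lam f) :
    ∃ M : Submodule ℂ (T → ℂ), IsHypSubspace R φ lam M :=
  main_subspace hφ lam hlam h

end Pool.Agent.Results.MP_b108d3_an.HypercyclicSubspace
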